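import Pool.Agent.H13.EL.OrbT
import Pool.Agent.H40.EL.Arith2

/-!
# The blocks of the machines

Machine number `e` has its own blocks of lengths; the numbers of the items of different machines
and blocks are different.
-/

set_option autoImplicit false

namespace Pool.Agent.H13.EL

open Pool.Agent.H88.RO Pool.Agent.H88.RO.Tr Pool.Agent.H65.TS Pool.Agent.H65.NU

variable {O : List Bool → Bool} {F : ℕ → ℕ}

theorem iter_orb (m i : ℕ) : F^[m] (orb F i) = orb F (i + m) := by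
  rw [orb, orb, ← Function.iterate_add_apply, add_comm]

theorem iter_ge (hF : Nice O F) (m : ℕ) {n : ℕ} (hn : 2 ≤ n) : n ≤ F^[m] n := by
  induction m with
  | zero => exact le_rfl
  | succ m ih =>
    rw [Function.iterate_succ_apply']
    exact ih.trans (hF.lt _ (hn.trans ih)).le

theorem iter_pow (hF : Nice O F) (m d : ℕ) {n : ℕ} (hn : 2 ≤ n) (hd : 1 ≤ d) :
    F^[m] (n ^ d) ≤ (F^[m] n) ^ d := by
  induction m with
  | zero => exact le_rfl
  | succ m ih =>
    rw [Function.iterate_succ_apply', Function.iterate_succ_apply']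
    exact (hF.mono ih).trans (hF.pow _ d (hn.trans (iter_ge hF m hn)) hd)

theorem lam_iter (hF : Nice O F) (m : ℕ) {n : ℕ} (hn : 2 ≤ n) :
    lam F n + m ≤ lam F (F^[m] n) := by
  have h1 : orb F (lam F n + m) ≤ F^[m] n := by
    rw [← iter_orb]
    exact hF.mono.iterate m (orb_lam_le hn)
  have h2 := lt_orb_lam hF (F^[m] n)
  have h3 := (orb_strictMono hF).lt_iff_lt.mp (h1.trans_lt h2)
  omega

/-- the number of the block of machine `e` which contains `n` -/
def bl (F : ℕ → ℕ) (e n : ℕ) : ℕ := lam F (n + 2) / (2 * 2 ^ e)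

/-- the upper end of the block -/
def En (F : ℕ → ℕ) (e n : ℕ) : ℕ := orb F (2 * 2 ^ e * (bl F e n + 1))

/-- a large number -/
def Dn (F : ℕ → ℕ) (e n : ℕ) : ℕ := En F e n ^ (2 ^ e)

/-- the number of the item -/
def Jn (F : ℕ → ℕ) (e n : ℕ) : ℕ :=
  3 * 2 ^ e + (lam F (Dn F e n) - lam F (Dn F e n) % (2 * 2 ^ e))

theorem lt_En (hF : Nice O F) (e n : ℕ) : n + 2 < En F e n := by
  refine (lt_orb_lam hF (n + 2)).trans_le ((orb_strictMono hF).monotone ?_)
  exact Nat.lt_mul_div_succ _ (by positivity)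

theorem En_le (hF : Nice O F) (e n : ℕ) : En F e n ≤ F^[2 * 2 ^ e] (n + 2) := by
  have h1 : orb F (2 * 2 ^ e * bl F e n) ≤ n + 2 :=
    ((orb_strictMono hF).monotone (Nat.mul_div_le _ _)).trans (orb_lam_le (by omega))
  have h2 := hF.mono.iterate (2 * 2 ^ e) h1
  rw [iter_orb] at h2
  exact h2

theorem two_le_En (hF : Nice O F) (e n : ℕ) : 2 ≤ En F e n := two_le_orb hF _

theorem En_le_Dn (e n : ℕ) : En F e n ≤ Dn F e n :=
  Nat.le_self_pow (by positivity) _

theorem two_le_Dn (hF : Nice O F) (e n : ℕ) : 2 ≤ Dn F e n :=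
  (two_le_En hF e n).trans (En_le_Dn e n)

theorem Jn_eq (e n : ℕ) : Jn F e n = 2 ^ e * (2 * (lam F (Dn F e n) / (2 * 2 ^ e) + 1) + 1) := by
  have h1 := Nat.div_add_mod (lam F (Dn F e n)) (2 * 2 ^ e)
  have h2 : lam F (Dn F e n) - lam F (Dn F e n) % (2 * 2 ^ e) =
      2 * 2 ^ e * (lam F (Dn F e n) / (2 * 2 ^ e)) := by omega
  rw [Jn, h2]
  ring

theorem Jn_bounds (e n : ℕ) : lam F (Dn F e n) + 1 + 2 ^ e ≤ Jn F e n ∧
    Jn F e n ≤ lam F (Dn F e n) + 3 * 2 ^ e := by
  have h1 := Nat.mod_lt (lam F (Dn F e n)) (show 0 < 2 * 2 ^ e by positivity)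
  have h2 := Nat.mod_le (lam F (Dn F e n)) (2 * 2 ^ e)
  have h3 : Jn F e n = 3 * 2 ^ e + (lam F (Dn F e n) - lam F (Dn F e n) % (2 * 2 ^ e)) := rfl
  generalize 2 ^ e = P at *
  omega

theorem Dn_lt (hF : Nice O F) (e n : ℕ) : Dn F e n < orb F (Jn F e n) := by
  refine (lt_orb_lam hF (Dn F e n)).trans_le ((orb_strictMono hF).monotone ?_)
  exact (Nat.le_add_right _ _).trans (Jn_bounds (F := F) e n).1

theorem orb_Jn_le (hF : Nice O F) (e n : ℕ) :
    orb F (Jn F e n) ≤ F^[3 * 2 ^ e] (Dn F e n) := by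
  have h1 := hF.mono.iterate (3 * 2 ^ e) (orb_lam_le (F := F) (two_le_Dn hF e n))
  rw [iter_orb] at h1
  exact ((orb_strictMono hF).monotone (Jn_bounds e n).2).trans h1

/-- larger blocks have larger items -/
theorem lam_Dn_lt (hF : Nice O F) {e n n' : ℕ} (h : bl F e n < bl F e n') :
    lam F (Dn F e n) / (2 * 2 ^ e) < lam F (Dn F e n') / (2 * 2 ^ e) := by
  have hq : 0 < 2 * 2 ^ e := by positivity
  have h1 : F^[2 * 2 ^ e] (En F e n) ≤ En F e n' := by
    rw [En, iter_orb]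
    refine (orb_strictMono hF).monotone ?_
    have h2 := Nat.mul_le_mul_left (2 * 2 ^ e) (show bl F e n + 2 ≤ bl F e n' + 1 by omega)
    have e1 : 2 * 2 ^ e * (bl F e n + 2) = 2 * 2 ^ e * (bl F e n + 1) + 2 * 2 ^ e := by ring
    omega
  have h2 : F^[2 * 2 ^ e] (Dn F e n) ≤ Dn F e n' :=
    (iter_pow hF _ _ (two_le_En hF e n) Nat.one_le_two_pow).trans (Nat.pow_le_pow_left h1 _)
  have h3 := lam_iter hF (2 * 2 ^ e) (two_le_Dn hF e n)
  have h4 := lam_mono hF ((two_le_Dn hF e n).trans (iter_ge hF _ (two_le_Dn hF e n))) h2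
  have h5 : (lam F (Dn F e n) + 2 * 2 ^ e) / (2 * 2 ^ e) ≤ lam F (Dn F e n') / (2 * 2 ^ e) :=
    Nat.div_le_div_right (h3.trans h4)
  rw [Nat.add_div_right _ hq] at h5
  exact h5

theorem Jn_inj (hF : Nice O F) {e n e' n' : ℕ} (h : Jn F e n = Jn F e' n') :
    e = e' ∧ bl F e n = bl F e n' := by
  have key : ∀ {e e' b b' : ℕ}, e < e' → 2 ^ e * (2 * b + 1) ≠ 2 ^ e' * (2 * b' + 1) := by
    intro e e' b b' hlt he
    obtain ⟨t, rfl⟩ : ∃ t, e' = e + 1 + t := ⟨e' - (e + 1), by omega⟩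
    have h1 : 2 ^ e * (2 * b + 1) = 2 ^ e * (2 * (2 ^ t * (2 * b' + 1))) := by
      rw [he, pow_add, pow_add]; ring
    have h2 := Nat.eq_of_mul_eq_mul_left (by positivity) h1
    omega
  rw [Jn_eq, Jn_eq] at h
  rcases lt_trichotomy e e' with h1 | h1 | h1
  · exact absurd h (key h1)
  · subst h1
    have h2 := Nat.eq_of_mul_eq_mul_left (by positivity) h
    refine ⟨rfl, ?_⟩
    rcases lt_trichotomy (bl F e n) (bl F e n') with h3 | h3 | h3
    · have := lam_Dn_lt hF h3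
      omega
    · exact h3
    · have := lam_Dn_lt hF h3
      omega
  · exact absurd h.symm (key h1)

/-- instances in the same block of machine `e` are in each others windows -/
theorem mem_window_of_bl (hF : Nice O F) {e : ℕ} {x x' : List Bool}
    (h : bl F e x.length = bl F e x'.length) : x' ∈ window F^[2 * 2 ^ e] x := by
  have key : ∀ {n n' : ℕ}, bl F e n = bl F e n' → n' + 2 < F^[2 * 2 ^ e] (n + 2) := by
    intro n n' hn
    have h1 := lt_En hF e n'
    have h2 := En_le hF e n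
    have h3 : En F e n = En F e n' := by rw [En, En, hn]
    omega
  exact ⟨key h, key h.symm⟩

end Pool.Agent.H13.EL
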