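import Pool.Agent.H65.NU.HistN

/-!
# Windows: search problems which are total near an instance

A search problem (polynomial time relation with a polynomial bound for the length of the
solutions) need not be total. It reduces to a total problem `T` relative to the windows `W`, if one
polynomial time reduction is correct at all instances `x` such that there are solutions at all
instances in the window `W x`.
-/

set_option autoImplicit false

namespace Pool.Agent.H13.EL

open Pool.Agent.H88.RO Pool.Agent.H88.RO.Tr Pool.Agent.H65.TS Pool.Agent.H65.NU

/-- An NP search problem relative to `O`, which need not be total. -/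
structure Search (O : List Bool → Bool) where
  /-- the relation: `R x y = true` says that `y` solves `x`, if `y` is short enough -/
  R : List Bool → List Bool → Bool
  /-- the polynomial bounding the length of solutions -/
  p : Polynomial ℕ
  polyTime : PolyTimeRel O R

variable {O : List Bool → Bool}

/-- `y` is a solution of the instance `x` of `S`. -/
def Search.IsSol (S : Search O) (x y : List Bool) : Prop :=
  y.length ≤ S.p.eval x.length ∧ S.R x y = true

/-- All instances in the set `X` have solutions. -/
def Search.SolvableOn (S : Search O) (X : Set (List Bool)) : Prop :=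
  ∀ x ∈ X, ∃ y, S.IsSol x y

/-- Many-one reducibility to the total problem `T`, relative to the windows `W`: one polynomial
time reduction is correct at every `x` such that all instances in `W x` have solutions. -/
def Search.Reduces (S : Search O) (T : TFNP O) (W : List Bool → Set (List Bool)) : Prop :=
  ∃ (f : List Bool → List Bool) (g : List Bool → List Bool → List Bool),
    PolyTimeFun O f ∧ PolyTimeFun₂ O g ∧
    ∀ x, S.SolvableOn (W x) → ∀ y, T.IsSol (f x) y → S.IsSol x (g x y)

/-- Turing reducibility by the programs `cf` (next query to `T`) and `cg` (solution), with time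
bound `r` and `s` queries, relative to the windows `W`. -/
def Search.TuringReducesBy (S : Search O) (T : TFNP O) (W : List Bool → Set (List Bool))
    (cf cg : Prog) (r s : Polynomial ℕ) : Prop :=
  ∀ x, S.SolvableOn (W x) → ∀ h, Hist T cf x h →
    (len h < s.eval x.length →
      ∃ q, ∃ t ≤ r.eval x.length, Eval O cf (node (enc x) h) (enc q) t) ∧
    (len h = s.eval x.length →
      ∃ w, ∃ t ≤ r.eval x.length, Eval O cg (node (enc x) h) (enc w) t ∧ S.IsSol x w)

/-- Polynomial time Turing reducibility to the total problem `T`, relative to the windows `W`. -/
def Search.TuringReduces (S : Search O) (T : TFNP O) (W : List Bool → Set (List Bool)) : Prop :=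
  ∃ (cf cg : Prog) (r s : Polynomial ℕ), S.TuringReducesBy T W cf cg r s

/-- only the instance itself -/
def point (x : List Bool) : Set (List Bool) := {x}

/-- the instances of the same length -/
def sameLength (x : List Bool) : Set (List Bool) := {x' | x'.length = x.length}

/-- the instances whose length differs by a factor of at most `c` -/
def near (c : ℕ) (x : List Bool) : Set (List Bool) :=
  {x' | x.length ≤ c * x'.length ∧ x'.length ≤ c * x.length}

/-- the instances whose length is polynomially related, with exponent `k` -/
def nearPow (k : ℕ) (x : List Bool) : Set (List Bool) :=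
  {x' | x.length ≤ (x'.length + 2) ^ k ∧ x'.length ≤ (x.length + 2) ^ k}

/-- all instances -/
def all (_ : List Bool) : Set (List Bool) := Set.univ

/-- `L` contains only strings `1^n`. -/
def IsTally (L : Set (List Bool)) : Prop := ∀ x ∈ L, ∃ n, x = List.replicate n true

/-- `L` contains only strings `1^(2^i)`. -/
def IsPowerTally (L : Set (List Bool)) : Prop := ∀ x ∈ L, ∃ i, x = List.replicate (2 ^ i) true

/-- `L` contains only strings `1^(2^(2^i))`. -/
def IsSuperTally (L : Set (List Bool)) : Prop :=
  ∀ x ∈ L, ∃ i, x = List.replicate (2 ^ (2 ^ i)) true

/-- Growth functions: monotone, larger than the identity, growing at most polynomially in a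
regular way, and computable in polynomial time in unary notation. -/
structure Nice (O : List Bool → Bool) (F : ℕ → ℕ) : Prop where
  mono : Monotone F
  lt : ∀ n, 2 ≤ n → n < F n
  pow : ∀ n d, 2 ≤ n → 1 ≤ d → F (n ^ d) ≤ F n ^ d
  polyTime : PolyTimeFun O (fun x => List.replicate (F x.length) true)

/-- the instances whose length is in the range given by the growth function `F`: neither of the
two lengths (plus two) reaches the value of `F` at the other one -/
def window (F : ℕ → ℕ) (x : List Bool) : Set (List Bool) :=
  {x' | x'.length + 2 < F (x.length + 2) ∧ x.length + 2 < F (x'.length + 2)}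

/-- `L` contains only strings `1^N` where `N` is one of the numbers `2, F 2, F (F 2), ...` -/
def IsOrbit (F : ℕ → ℕ) (L : Set (List Bool)) : Prop :=
  ∀ x ∈ L, ∃ i, x = List.replicate (F^[i] 2) true

/-- The collapse at the orbit of `F`: every set in `Π₂` which contains only strings `1^N`, where
`N` is one of the numbers `2, F 2, F (F 2), ...`, is in coNP. -/
def Collapse (O : List Bool → Bool) (F : ℕ → ℕ) : Prop :=
  ∀ L : Set (List Bool), IsOrbit F L → InPi2 O L → InNP O Lᶜ

/-- Bigger windows are easier. -/
theorem Search.Reduces.mono {S : Search O} {T : TFNP O} {W W' : List Bool → Set (List Bool)}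
    (h : S.Reduces T W) (hW : ∀ x, W x ⊆ W' x) : S.Reduces T W' := by
  obtain ⟨f, g, hf, hg, hfg⟩ := h
  exact ⟨f, g, hf, hg, fun x hx => hfg x (fun x' hx' => hx x' (hW x hx'))⟩

/-- a total problem as a search problem -/
def ofTFNP (S : TFNP O) : Search O := ⟨S.R, S.p, S.polyTime⟩

theorem ofTFNP_isSol (S : TFNP O) (x y : List Bool) : (ofTFNP S).IsSol x y ↔ S.IsSol x y := Iff.rfl

end Pool.Agent.H13.EL
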