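import Pool.Agent.H13.EL.Orb
import Pool.Agent.H65.TS.Large

/-!
# Programs for a nice function and its orbit
-/

set_option autoImplicit false

namespace Pool.Agent.H13.EL

open Pool.Agent.H88.RO Pool.Agent.H88.RO.Tr Pool.Agent.H65.TS Pool.Agent.H65.NU

variable {O : List Bool → Bool} {F : ℕ → ℕ}

theorem FP_ofPoly {f : List Bool → List Bool} (hf : PolyTimeFun O f) {g : Tr → List Bool}
    (hg : FP O (fun v => enc (g v))) : FP O (fun v => enc (f (g v))) := by
  obtain ⟨s, hs⟩ := hg.size_bound
  obtain ⟨cf, qf, hf⟩ := hf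
  obtain ⟨cG, qG, hG⟩ := hg
  refine ⟨Prog.comp cf cG, qG + qf.comp s + Polynomial.X + 1, fun v => ?_⟩
  obtain ⟨t1, ht1, he1⟩ := hG v
  obtain ⟨t2, ht2, he2⟩ := hf (g v)
  refine ⟨t1 + t2 + size v + 1, ?_, Eval.comp he1 he2⟩
  simp only [Polynomial.eval_add, Polynomial.eval_comp, Polynomial.eval_X, Polynomial.eval_one]
  have h1 := hs v
  have h2 := len_le_size (enc (g v))
  rw [len_enc] at h2
  have h3 : (g v).length ≤ s.eval (size v) := by omega
  have := poly_mono qf h3
  omega

/-- a nice function in unary -/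
def unF (F : ℕ → ℕ) (v : Tr) : Tr := num (F (len v))

theorem FP.unF' (hF : Nice O F) {G : Tr → Tr} (hG : FP O G) : FP O (fun v => unF F (G v)) := by
  have h1 : FP O (fun v => enc (List.replicate (len (G v)) true)) := by
    have h := FP.onesPre' hG (FP.leaf' (O := O))
    refine Eq.mp ?_ h
    congr 1
    funext v
    rw [onesPre_leaf]
  have h2 := FP.ulen' (FP_ofPoly hF.polyTime h1)
  refine Eq.mp ?_ h2
  congr 1
  funext v
  rw [ulen_eq, len_enc, List.length_replicate, List.length_replicate, unF]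

theorem orb_ge (hF : Nice O F) (i : ℕ) : i + 2 ≤ orb F i := by
  induction i with
  | zero => exact le_refl 2
  | succ i ih =>
    have : orb F i < orb F (i + 1) := orb_strictMono hF (Nat.lt_succ_self i)
    omega

/-- the number of the block which contains `m` -/
def lam (F : ℕ → ℕ) (m : ℕ) : ℕ := Nat.findGreatest (fun i => orb F i ≤ m) m

theorem orb_lam_le {m : ℕ} (hm : 2 ≤ m) : orb F (lam F m) ≤ m :=
  Nat.findGreatest_spec (P := fun i => orb F i ≤ m) (Nat.zero_le m) (by exact hm)

theorem lt_orb_lam (hF : Nice O F) (m : ℕ) : m < orb F (lam F m + 1) := by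
  by_contra h
  push Not at h
  have h1 := orb_ge hF (lam F m + 1)
  have h2 : lam F m + 1 ≤ lam F m :=
    Nat.le_findGreatest (P := fun i => orb F i ≤ m) (by omega) h
  omega

theorem lam_eq (hF : Nice O F) {m i : ℕ} (h1 : orb F i ≤ m) (h2 : m < orb F (i + 1)) :
    lam F m = i := by
  have h3 := lt_orb_lam hF m
  have h4 : orb F (lam F m) ≤ m := orb_lam_le ((two_le_orb hF i).trans h1)
  have h5 := (orb_strictMono hF).lt_iff_lt.mp (h1.trans_lt h3)
  have h6 := (orb_strictMono hF).lt_iff_lt.mp (h4.trans_lt h2)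
  omega

theorem lam_mono (hF : Nice O F) {m m' : ℕ} (hm : 2 ≤ m) (h : m ≤ m') : lam F m ≤ lam F m' := by
  have h3 := lt_orb_lam hF m'
  have h4 : orb F (lam F m) ≤ m := orb_lam_le hm
  have h5 := (orb_strictMono hF).lt_iff_lt.mp ((h4.trans h).trans_lt h3)
  omega

/-- one step along the orbit -/
def lamStep (F : ℕ → ℕ) (x : Tr) : Tr :=
  cs (dropU (snd x) (unF F (fst (fst x))))
    (node (node (unF F (fst (fst x))) (node leaf (snd (fst x)))) (snd x)) x

/-- the pair of `orb F (lam F (len v))` and `lam F (len v)`, in unary -/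
def lamP (F : ℕ → ℕ) (v : Tr) : Tr := fst ((lamStep F)^[len v] (node (node (num 2) leaf) v))

theorem lamStep_iter (hF : Nice O F) (v : Tr) (n : ℕ) :
    (lamStep F)^[n] (node (node (num 2) leaf) v) =
      node (node (num (orb F (min n (lam F (len v))))) (num (min n (lam F (len v))))) v := by
  induction n with
  | zero => simp [orb]; rfl
  | succ n ih =>
    rw [Function.iterate_succ_apply', ih, lamStep]
    simp only [fst_node, snd_node, unF, len_num, ← orb_succ]
    rcases Nat.lt_or_ge n (lam F (len v)) with h | h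
    · rw [min_eq_left h.le, min_eq_left (by omega : n + 1 ≤ lam F (len v))]
      have h1 : orb F (n + 1) ≤ orb F (lam F (len v)) := (orb_strictMono hF).monotone h
      have h2 : 2 ≤ len v := by
        by_contra h2
        have h3 : orb F (lam F (len v)) ≤ len v :=
          Nat.findGreatest_of_ne_zero (P := fun i => orb F i ≤ len v) rfl (by omega)
        have := two_le_orb hF (lam F (len v))
        omega
      have h3 := orb_lam_le (F := F) h2
      rw [cs_pos _ _ (by rw [dropU_eq_leaf, len_num]; omega)]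
      rfl
    · rw [min_eq_right h, min_eq_right (by omega : lam F (len v) ≤ n + 1)]
      have h1 := lt_orb_lam hF (len v)
      rw [cs_neg _ _ (by rw [ne_eq, dropU_eq_leaf, len_num]; omega)]

theorem lam_le (m : ℕ) : lam F m ≤ m := Nat.findGreatest_le m

theorem lamP_eq (hF : Nice O F) (v : Tr) :
    lamP F v = node (num (orb F (lam F (len v)))) (num (lam F (len v))) := by
  rw [lamP, lamStep_iter hF, fst_node, min_eq_right (lam_le _)]

theorem lamStep_bound (x : Tr) (i : ℕ) : snd ((lamStep F)^[i] x) = snd x ∧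
    size (snd (fst ((lamStep F)^[i] x))) ≤ size x + 2 * i ∧
    ((lamStep F)^[i] x = x ∨ ∃ a w, a ≤ len (snd x) ∧ size w ≤ size x + 2 * i ∧
      (lamStep F)^[i] x = node (node (num a) w) (snd x)) := by
  induction i with
  | zero =>
    refine ⟨rfl, ?_, Or.inl rfl⟩
    have h1 := size_fst_le x
    have h2 := size_snd_le (fst x)
    simp only [Function.iterate_zero, id]
    omega
  | succ i ih =>
    obtain ⟨h1, h2, h3⟩ := ih
    rw [Function.iterate_succ_apply', lamStep, h1]
    by_cases h : dropU (snd x) (unF F (fst (fst ((lamStep F)^[i] x)))) = leaf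
    · rw [cs_pos _ _ h]
      refine ⟨rfl, ?_, Or.inr ⟨F (len (fst (fst ((lamStep F)^[i] x)))),
        node leaf (snd (fst ((lamStep F)^[i] x))), ?_, ?_, rfl⟩⟩
      · simp only [fst_node, snd_node, size]
        omega
      · rw [dropU_eq_leaf, unF, len_num] at h
        exact h
      · simp only [size]
        omega
    · rw [cs_neg _ _ h]
      refine ⟨h1, by omega, ?_⟩
      rcases h3 with h3 | ⟨a, w, h4, h5, h6⟩
      · exact Or.inl h3
      · exact Or.inr ⟨a, w, h4, by omega, h6⟩

theorem FP.lamP' (hF : Nice O F) {G : Tr → Tr} (hG : FP O G) : FP O (fun v => lamP F (G v)) := by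
  have hd : FP O (lamStep F) := by
    have h1 : FP O (fun v => snd v) := FP.snd' FP.id'
    have h2 : FP O (fun v => fst (fst v)) := FP.fst' (FP.fst' FP.id')
    have h3 : FP O (fun v => snd (fst v)) := FP.snd' (FP.fst' FP.id')
    exact FP.cs' (FP.dropU' h1 (FP.unF' hF h2))
      (FP.node' (FP.node' (FP.unF' hF h2) (FP.node' FP.leaf' h3)) h1) FP.id'
  refine FP.fst' (FP.iterate' hd hG (FP.node' (FP.const' _) hG)
    ⟨6 * Polynomial.X + 10, fun n x i hi => ?_⟩)
  simp only [Polynomial.eval_add, Polynomial.eval_mul, Polynomial.eval_ofNat, Polynomial.eval_X]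
  have h0 := len_le_size n
  rcases (lamStep_bound (F := F) x i).2.2 with h | ⟨a, w, h1, h2, h⟩
  · rw [h]; omega
  · rw [h]
    simp only [size, size_num]
    have h3 := size_snd_le x
    have h4 := len_le_size (snd x)
    omega

/-- membership in the orbit -/
def orbT (F : ℕ → ℕ) (v : Tr) : Tr := eqL (fst (lamP F v)) v

theorem orbT_spec (hF : Nice O F) (v : Tr) : orbT F v ≠ leaf ↔ len v ∈ Set.range (orb F) := by
  rw [orbT, eqL_spec, lamP_eq hF, fst_node, len_num]
  constructor
  · intro h; exact ⟨_, h⟩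
  · rintro ⟨i, hi⟩
    rw [lam_eq hF (i := i) hi.le (by rw [← hi]; exact orb_strictMono hF (Nat.lt_succ_self i)), hi]

theorem FP.orbT' (hF : Nice O F) {G : Tr → Tr} (hG : FP O G) : FP O (fun v => orbT F (G v)) :=
  FP.eqL' (FP.fst' (FP.lamP' hF hG)) hG

end Pool.Agent.H13.EL
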