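import Pool.Agent.H65.NU.Pair
import Pool.Agent.H40.EL.Down
import Pool.Agent.H40.EL.Bad
import Pool.Agent.H13.EL.OrbT

/-!
# From reductions relative to windows to sets in coNP

`down_general` is a version of the lemma of the same name in H40/EL/Down with a general
function `l` for the lengths at which the items are placed.
-/

set_option autoImplicit false

namespace Pool.Agent.H13.EL

open Pool.Agent.H88.RO Pool.Agent.H88.RO.Tr Pool.Agent.H65.TS Pool.Agent.H65.NU
open Pool.Agent.H40.EL (parse_none zerT zerT_spec FP.zerT' andT andT_spec FP.andT' impT impT_spec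
  FP.impT' itN itU itNT itUT itNT_enc itUT_enc FP.itNT' FP.itUT' it_le)

variable {O : List Bool → Bool}

section

variable (S : Set ℕ) (l : ℕ → ℕ) (p1 r : Polynomial ℕ) (Q : List Bool → List Bool → Bool)

/-- the instance `x` is of the form which we use -/
def Cnd (x : List Bool) : Prop :=
  itN x ∈ S ∧ x.length = l (itN x) ∧ (itU x).length ≤ p1.eval (itN x)

/-- the relation of the search problem -/
def RelD (x y : List Bool) : Prop :=
  Cnd S l p1 x → y.length ≤ r.eval (pr (List.replicate (itN x) true) (itU x)).length ∧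
    Q (pr (List.replicate (itN x) true) (itU x)) y = true

/-- program for `RelD` -/
def relDT (ST Pe Pp Pr : Tr → Tr) (x y : Tr) : Tr :=
  impT (andT (ST (itNT x)) (andT (eqL x (Pe (itNT x))) (cs (dropU (Pp (itNT x)) (itUT x)) tt leaf)))
    (qT Q Pr (prT (onesPre (itNT x) leaf) (itUT x)) y)

theorem relDT_spec {ST Pe Pp Pr : Tr → Tr} (hS : ∀ v, ST v ≠ leaf ↔ len v ∈ S)
    (he : ∀ v, Pe v = num (l (len v))) (hp : ∀ v, Pp v = num (p1.eval (len v)))
    (hr : ∀ v, Pr v = num (r.eval (len v))) (x y : List Bool) :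
    relDT Q ST Pe Pp Pr (enc x) (enc y) ≠ leaf ↔ RelD S l p1 r Q x y := by
  unfold relDT RelD Cnd
  rw [impT_spec, andT_spec, andT_spec, itNT_enc, itUT_enc, hS, eqL_spec, he, len_num,
    len_num, len_enc, onesPre_leaf, len_num, prT_enc, qT_spec hr, dec_enc, dec_enc]
  have h1 : cs (dropU (Pp (num (itN x))) (enc (itU x))) tt leaf ≠ leaf ↔
      (itU x).length ≤ p1.eval (itN x) := by
    by_cases h : (itU x).length ≤ p1.eval (itN x)
    · rw [cs_pos _ _ (by rw [dropU_eq_leaf, hp, len_num, len_num, len_enc]; exact h)]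
      simp [h]
    · rw [cs_neg _ _ (by rw [ne_eq, dropU_eq_leaf, hp, len_num, len_num, len_enc]; exact h)]
      simp [h]
  rw [h1]

theorem FP_relDT {Q : List Bool → List Bool → Bool} (hQ : PolyTimeRel O Q)
    {ST Pe Pp Pr : Tr → Tr} (hS : ∀ F, FP O F → FP O (fun v => ST (F v)))
    (he : ∀ F, FP O F → FP O (fun v => Pe (F v))) (hp : ∀ F, FP O F → FP O (fun v => Pp (F v)))
    (hr : ∀ F, FP O F → FP O (fun v => Pr (F v))) {F G : Tr → Tr} (hF : FP O F) (hG : FP O G) :
    FP O (fun v => relDT Q ST Pe Pp Pr (F v) (G v)) := by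
  have h1 := FP.itNT' hF
  have h2 := FP.itUT' hF
  have h3 := FP.impT' (FP.andT' (hS _ h1) (FP.andT' (FP.eqL' hF (he _ h1))
    (FP.cs' (FP.dropU' (hp _ h1) h2) (FP.const' tt) FP.leaf')))
    (FP.qT' hQ hr (FP.prT' (FP.onesPre' h1 FP.leaf') h2) hG)
  exact h3

end

open Classical in
/-- The general step down.  `hB` is what a Turing reduction to a total problem, correct on
the windows `W`, gives us. -/
theorem down_general {W : List Bool → Set (List Bool)}
    (hB : ∀ (R : List Bool → List Bool → Bool) (p : Polynomial ℕ), PolyTimeRel O R →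
      ∃ B : Set (List Bool), InNP O B ∧ ∀ x : List Bool,
        ((∀ x' ∈ W x, ∃ y : List Bool, y.length ≤ p.eval x'.length ∧ R x' y = true) → x ∉ B) ∧
        ((∀ y : List Bool, ¬ (y.length ≤ p.eval x.length ∧ R x y = true)) → x ∈ B))
    {S : Set ℕ} {ST : Tr → Tr} (hS : ∀ v, ST v ≠ leaf ↔ len v ∈ S)
    (hST : ∀ F, FP O F → FP O (fun v => ST (F v)))
    (hW : ∀ P : Polynomial ℕ, ∃ (l : ℕ → ℕ) (Pe : Tr → Tr) (pl : Polynomial ℕ),
      (∀ v, Pe v = num (l (len v))) ∧ (∀ F, FP O F → FP O (fun v => Pe (F v))) ∧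
      (∀ n, l n ≤ pl.eval n) ∧ (∀ n ∈ S, P.eval n ≤ l n) ∧
      ∀ n ∈ S, ∀ n' ∈ S, ∀ x x' : List Bool, x.length = l n →
        x'.length = l n' → x' ∈ W x → n' = n)
    {L : Set (List Bool)} (hLS : ∀ w ∈ L, ∃ n ∈ S, w = List.replicate n true)
    (hL : InPi2 O L) : InNP O Lᶜ := by
  obtain ⟨M, p1, ⟨Q, r, hQ, hM⟩, hLc⟩ := hL
  obtain ⟨l, Pe, pl, he1, he2, hpl, hd1, hd0⟩ := hW (p1 + Polynomial.X + 2)
  obtain ⟨Pp, hp1, hp2⟩ := exists_polyT p1
  obtain ⟨Pr, hr1, hr2⟩ := exists_polyT r
  have hR : PolyTimeRel O (fun x y => decide (RelD S l p1 r Q x y)) := by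
    have hx : FP O (fun v => fst v) := FP.fst' FP.id'
    have hy : FP O (fun v => snd v) := FP.snd' FP.id'
    exact polyTimeRel_of_FP (FP_relDT hQ hST he2 (hp2 O) (hr2 O) hx hy) (fun x y => by
      rw [fst_node, snd_node, relDT_spec S l p1 r Q hS he1 hp1 hr1, decide_eq_true_eq])
  obtain ⟨B, ⟨RB, pB, hRB, hBB⟩, hB2⟩ := hB _ (r.comp (3 * Polynomial.X + 1)) hR
  -- members of `L`
  have hin : ∀ n ∈ S, List.replicate n true ∈ L → ∀ x : List Bool, x.length = l n →
      x ∉ B := by
    intro n hn hnL x hx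
    refine (hB2 x).1 (fun x' hx' => ?_)
    by_cases hc : Cnd S l p1 x'
    · obtain ⟨h1, h2, h3⟩ := hc
      have h4 : itN x' = n := hd0 n hn (itN x') h1 x x' hx h2 hx'
      have h5 : ∃ y : List Bool, y.length ≤
          r.eval (pr (List.replicate (itN x') true) (itU x')).length ∧
          Q (pr (List.replicate (itN x') true) (itU x')) y = true := by
        by_contra hcon
        have h6 : pr (List.replicate (itN x') true) (itU x') ∈ M := by
          by_contra h7
          exact hcon ((hM _).mp h7)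
        rw [h4] at h6 h3
        exact (hLc _).mpr ⟨itU x', by rw [List.length_replicate]; exact h3, h6⟩ hnL
      obtain ⟨y, hy1, hy2⟩ := h5
      refine ⟨y, hy1.trans ?_, by rw [decide_eq_true_eq]; exact fun _ => ⟨hy1, hy2⟩⟩
      simp only [Polynomial.eval_comp, Polynomial.eval_add, Polynomial.eval_mul,
        Polynomial.eval_ofNat, Polynomial.eval_X, Polynomial.eval_one]
      apply poly_mono
      rw [pr_length, List.length_replicate]
      have := it_le x'
      omega
    · exact ⟨[], by simp, by rw [decide_eq_true_eq]; exact fun h => absurd h hc⟩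
  -- strings outside `L`
  have hout : ∀ n ∈ S, List.replicate n true ∉ L → ∃ x : List Bool, x.length = l n ∧
      x ∈ B := by
    intro n hn hnL
    obtain ⟨u, hu1, hu2⟩ := (hLc _).mp hnL
    rw [List.length_replicate] at hu1
    have h1 := hd1 n hn
    simp only [Polynomial.eval_add, Polynomial.eval_X, Polynomial.eval_ofNat] at h1
    obtain ⟨a, ha⟩ : ∃ a, n + 1 + (a + 1 + u.length) = l n :=
      ⟨l n - (n + 2 + u.length), by omega⟩
    set x : List Bool := List.replicate n true ++ false :: (List.replicate a true ++ false :: u)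
      with hx
    have hxl : x.length = l n := by
      rw [hx, ← ha]
      simp
      ring
    have hxN : itN x = n := by rw [itN, hx, prs_ones]
    have hxU : itU x = u := by rw [itU, hx, prs_ones, prs_ones]
    refine ⟨x, hxl, (hB2 x).2 (fun y hy => ?_)⟩
    have h2 : RelD S l p1 r Q x y := by
      have := hy.2
      rwa [decide_eq_true_eq] at this
    have h3 := h2 ⟨by rw [hxN]; exact hn, by rw [hxN]; exact hxl, by rw [hxN, hxU]; exact hu1⟩
    rw [hxN, hxU] at h3
    exact (hM _).mpr ⟨y, h3⟩ hu2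
  -- the set is in NP
  obtain ⟨PB, hPB1, hPB2⟩ := exists_polyT pB
  refine ⟨fun w c => decide (¬ (w = List.replicate w.length true ∧ w.length ∈ S) ∨
    ((un1 c).length = l w.length ∧ (un2 c).length ≤ pB.eval (un1 c).length ∧
      RB (un1 c) (un2 c) = true)), 2 * pl + 1 + pB.comp pl, ?_, fun w => ?_⟩
  · have hx : FP O (fun v => fst v) := FP.fst' FP.id'
    have hy : FP O (fun v => snd v) := FP.snd' FP.id'
    have h1 := FP.impT' (FP.andT' (FP.cs' (FP.zerT' hx) (FP.const' tt) FP.leaf') (hST _ hx))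
      (FP.andT' (FP.eqL' (FP.un1T' hy) (he2 _ hx))
        (FP.qT' hRB (hPB2 O) (FP.un1T' hy) (FP.un2T' hy)))
    refine polyTimeRel_of_FP h1 (fun w c => ?_)
    simp only [fst_node, snd_node]
    rw [impT_spec, andT_spec, andT_spec, hS, eqL_spec, he1, un1T_enc, un2T_enc,
      len_num, len_enc, len_enc, qT_spec hPB1, dec_enc, dec_enc, decide_eq_true_eq]
    have h2 : cs (zerT (enc w)) tt leaf ≠ leaf ↔ w = List.replicate w.length true := by
      rw [← zerT_spec]
      by_cases h : zerT (enc w) = leaf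
      · rw [cs_pos _ _ h]; simp [h]
      · rw [cs_neg _ _ h]; simp [h]
    rw [h2, imp_iff_not_or]
  · simp only [decide_eq_true_eq, Set.mem_compl_iff]
    constructor
    · intro hw
      by_cases hf : w = List.replicate w.length true ∧ w.length ∈ S
      · obtain ⟨x, hx1, hx2⟩ := hout w.length hf.2 (by rw [← hf.1]; exact hw)
        obtain ⟨c, hc1, hc2⟩ := (hBB x).mp hx2
        refine ⟨pr x c, ?_, Or.inr ?_⟩
        · rw [pr_length]
          simp only [Polynomial.eval_add, Polynomial.eval_mul, Polynomial.eval_ofNat,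
            Polynomial.eval_one, Polynomial.eval_comp]
          rw [hx1] at hc1 ⊢
          have h8 := hpl w.length
          have h9 := poly_mono pB h8
          omega
        · rw [un1_pr, un2_pr]
          exact ⟨hx1, hc1, hc2⟩
      · exact ⟨[], by simp, Or.inl hf⟩
    · rintro ⟨c, _, h⟩ hwL
      obtain ⟨n, hn, rfl⟩ := hLS w hwL
      rw [List.length_replicate] at h
      rcases h with h | ⟨h1, h2, h3⟩
      · exact h ⟨rfl, hn⟩
      · exact hin n hn hwL (un1 c) h1 ((hBB _).mpr ⟨un2 c, h2, h3⟩)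


/-- A Turing reduction relative to windows gives a set in NP which separates the instances with
solvable windows from the unsolvable instances. -/
theorem bad_of_turing {S : Search O} {T : TFNP O} {W : List Bool → Set (List Bool)}
    (h : S.TuringReduces T W) : ∃ B : Set (List Bool), InNP O B ∧ ∀ x : List Bool,
      (S.SolvableOn (W x) → x ∉ B) ∧ ((∀ y, ¬ S.IsSol x y) → x ∈ B) := by
  obtain ⟨cf, cg, r, s, hred⟩ := h
  exact Pool.Agent.H40.EL.exists_bad T S.polyTime S.p (G := fun x => S.SolvableOn (W x))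
    (cf := cf) (cg := cg) (r := r) (s := s) (fun x hx => hred x hx)

/-- every polynomial is bounded by a power at the numbers which are at least two -/
theorem exists_pow_ge (P : Polynomial ℕ) : ∃ d, 1 ≤ d ∧ ∀ N, 2 ≤ N → P.eval N ≤ N ^ d := by
  obtain ⟨d, hd⟩ := Pool.Agent.H40.EL.exists_pow_bound P
  refine ⟨3 * (d + 1), by omega, fun N hN => ?_⟩
  have h1 := hd (d + 1) (by omega) N
  have h2 : 2 * (N + 1) ≤ N ^ 3 := by
    have h3 : N ^ 3 = N * (N * N) := by ring
    have h4 : 2 * N ≤ N * N := Nat.mul_le_mul_right N hN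
    have h5 : N * (2 * N) ≤ N * (N * N) := Nat.mul_le_mul_left N h4
    have h6 : 2 * (2 * N) ≤ N * (2 * N) := Nat.mul_le_mul_right _ hN
    omega
  calc P.eval N ≤ (2 * (N + 1)) ^ (d + 1) := h1
    _ ≤ (N ^ 3) ^ (d + 1) := Nat.pow_le_pow_left h2 _
    _ = N ^ (3 * (d + 1)) := (pow_mul _ _ _).symm

/-- **From reductions relative to the windows of a nice function to sets in coNP.** -/
theorem downF {F : ℕ → ℕ} (hF : Nice O F)
    (h : ∀ S : Search O, ∃ T : TFNP O, S.TuringReduces T (window F)) :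
    ∀ L, IsOrbit F L → InPi2 O L → InNP O Lᶜ := by
  intro L hL1 hL2
  refine down_general (W := window F) (fun R p hR => ?_) (S := Set.range (orb F))
    (ST := orbT F) (orbT_spec hF) (fun G hG => FP.orbT' hF hG) (fun P => ?_) (fun w hw => ?_) hL2
  · obtain ⟨T, hT⟩ := h ⟨R, p, hR⟩
    exact bad_of_turing hT
  · obtain ⟨d, hd1, hd2⟩ := exists_pow_ge (P + 2)
    refine ⟨fun N => N ^ d - 2, fun v => snd (snd (powU d v)), Polynomial.X ^ d, fun v => ?_,
      fun G hG => FP.snd' (FP.snd' (FP.powU' d hG)), fun n => ?_, fun n hn => ?_,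
      fun n hn n' hn' x x' hx hx' hxx => ?_⟩
    · show snd (snd (powU d v)) = num (len v ^ d - 2)
      rw [powU_eq]
      rcases len v ^ d with _ | _ | k
      · rfl
      · rfl
      · rfl
    · rw [Polynomial.eval_pow, Polynomial.eval_X]
      exact Nat.sub_le _ _
    · obtain ⟨i, rfl⟩ := hn
      have h1 := hd2 _ (two_le_orb hF i)
      rw [Polynomial.eval_add, Polynomial.eval_ofNat] at h1
      show _ ≤ orb F i ^ d - 2
      omega
    · obtain ⟨i, rfl⟩ := hn
      obtain ⟨j, rfl⟩ := hn'
      have key : ∀ {i j : ℕ}, orb F j ^ d < F (orb F i ^ d) → j < i + 1 := by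
        intro i j h1
        have h2 : orb F j ^ d < orb F (i + 1) ^ d := by
          rw [orb_succ]
          exact h1.trans_le (hF.pow _ d (two_le_orb hF i) hd1)
        exact (orb_strictMono hF).lt_iff_lt.mp (lt_of_pow_lt_pow_left₀ d (Nat.zero_le _) h2)
      have e : ∀ i, orb F i ^ d - 2 + 2 = orb F i ^ d := by
        intro i
        have h1 := hd2 _ (two_le_orb hF i)
        rw [Polynomial.eval_add, Polynomial.eval_ofNat] at h1
        omega
      obtain ⟨h1, h2⟩ := hxx
      rw [hx, hx', e, e] at h1 h2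
      have h3 := key h1
      have h4 := key h2
      rw [show i = j by omega]
  · obtain ⟨i, hi⟩ := hL1 w hw
    exact ⟨orb F i, ⟨i, rfl⟩, hi⟩

end Pool.Agent.H13.EL
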