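import Pool.Agent.H13.EL.OrbT

/-!
# Examples of nice functions
-/

set_option autoImplicit false

namespace Pool.Agent.H13.EL

open Pool.Agent.H88.RO Pool.Agent.H88.RO.Tr Pool.Agent.H65.TS Pool.Agent.H65.NU

variable {O : List Bool → Bool}

theorem polyTime_unary {f : ℕ → ℕ} {G : Tr → Tr} (hG : FP O G) (h : ∀ v, len (G v) = f (len v)) :
    PolyTimeFun O (fun x => List.replicate (f x.length) true) :=
  polyTimeFun_of_FP (F := fun v => onesPre (G v) leaf) (FP.onesPre' hG FP.leaf') (fun x => by
    rw [onesPre_leaf, h, len_enc])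

theorem nice_succ : Nice O (fun n => n + 1) where
  mono := fun a b h => Nat.succ_le_succ h
  lt := fun n _ => Nat.lt_succ_self n
  pow := fun n d _ hd => by
    obtain ⟨d, rfl⟩ : ∃ e, d = e + 1 := ⟨d - 1, by omega⟩
    show n ^ (d + 1) + 1 ≤ (n + 1) ^ (d + 1)
    exact Nat.pow_lt_pow_left (Nat.lt_succ_self n) (Nat.succ_ne_zero d)
  polyTime := polyTime_unary (G := fun v => node leaf v) (FP.node' FP.leaf' FP.id') (fun v => rfl)

theorem nice_mul {c : ℕ} (hc : 2 ≤ c) : Nice O (fun n => c * n) where
  mono := fun a b h => Nat.mul_le_mul_left c h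
  lt := fun n hn => by
    show n < c * n
    have := Nat.mul_le_mul_right n hc
    omega
  pow := fun n d _ hd => by
    show c * n ^ d ≤ (c * n) ^ d
    rw [mul_pow]
    exact Nat.mul_le_mul_right _ (Nat.le_self_pow (by omega) c)
  polyTime := polyTime_unary (G := fun v => mulU (num c) v) (FP.mulU' (FP.const' _) FP.id')
    (fun v => by rw [mulU_eq, len_num, len_num])

theorem nice_pow {k : ℕ} (hk : 2 ≤ k) : Nice O (fun n => n ^ k) where
  mono := fun a b h => Nat.pow_le_pow_left h k
  lt := fun n hn => by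
    show n < n ^ k
    calc n = n ^ 1 := (pow_one n).symm
      _ < n ^ k := Nat.pow_lt_pow_right (by omega) (by omega)
  pow := fun n d _ _ => by
    show (n ^ d) ^ k ≤ (n ^ k) ^ d
    rw [← pow_mul, ← pow_mul, mul_comm]
  polyTime := polyTime_unary (f := fun n => n ^ k) (G := fun v => powU k v) (FP.powU' k FP.id')
    (fun v => by rw [powU_eq, len_num])

end Pool.Agent.H13.EL
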