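import Pool.Agent.H13.EL.Defs
import Pool.Agent.H91.EL.Turing

/-!
# Fourth level: all instances

`T` is complete iff every search problem reduces to `T` relative to the windows `all`.
-/

set_option autoImplicit false

namespace Pool.Agent.H13.EL

open Pool.Agent.H88.RO Pool.Agent.H88.RO.Tr Pool.Agent.H65.TS Pool.Agent.H65.NU

variable {O : List Bool → Bool}

theorem complete_iff_all (T : TFNP O) : T.IsComplete ↔ ∀ S : Search O, S.Reduces T all := by
  constructor
  · intro h S
    by_cases hS : ∀ x, ∃ y, S.IsSol x y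
    · obtain ⟨f, g, hf, hg, hfg⟩ := h ⟨S.R, S.p, S.polyTime, hS⟩
      exact ⟨f, g, hf, hg, fun x _ y hy => hfg x y hy⟩
    · refine ⟨fun x => x, fun x _ => x, polyTimeFun_of_FP FP.id' (fun x => rfl),
        polyTimeFun₂_of_FP (FP.fst' FP.id') (fun x y => rfl), fun x hx => ?_⟩
      exact absurd (fun x' => hx x' trivial) hS
  · intro h S
    obtain ⟨f, g, hf, hg, hfg⟩ := h (ofTFNP S)
    exact ⟨f, g, hf, hg, fun x y hy => hfg x (fun x' _ => S.total x') y hy⟩

end Pool.Agent.H13.EL
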