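import Pool.Agent.H13.EL.Defs

/-!
# Many-one reductions are Turing reductions
-/

set_option autoImplicit false

namespace Pool.Agent.H13.EL

open Pool.Agent.H88.RO Pool.Agent.H88.RO.Tr Pool.Agent.H65.TS Pool.Agent.H65.NU

variable {O : List Bool → Bool}

theorem Search.TuringReduces.of_reduces {S : Search O} {T : TFNP O}
    {W : List Bool → Set (List Bool)} (h : S.Reduces T W) : S.TuringReduces T W := by
  obtain ⟨f, g, ⟨cf, qf, hf⟩, ⟨cg, qg, hg⟩, hred⟩ := h
  -- size of the queries
  have hlen : ∀ x, (f x).length ≤ 2 * qf.eval x.length := by
    intro x
    obtain ⟨t, ht, he⟩ := hf x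
    have h1 := he.size_le
    have h2 := len_le_size (enc (f x))
    rw [len_enc] at h2
    omega
  let P : Polynomial ℕ := T.p.comp (2 * qf)
  refine ⟨Prog.comp cf Prog.fst, Prog.comp cg (Prog.pair Prog.fst (Prog.comp Prog.fst Prog.snd)),
    qf + qg.comp (Polynomial.X + P) + 40 * Polynomial.X + 40 * P + 100, 1, ?_⟩
  intro x hx0 h hh
  have hr : (qf + qg.comp (Polynomial.X + P) + 40 * Polynomial.X + 40 * P + 100).eval x.length =
      qf.eval x.length + qg.eval (x.length + P.eval x.length) + 40 * x.length +
        40 * P.eval x.length + 100 := by
    simp
  rw [hr, Polynomial.eval_one]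
  have hx := size_enc_le x
  constructor
  · intro h1
    have h2 : len h = 0 := by omega
    rw [len_eq_zero] at h2
    subst h2
    obtain ⟨t, ht, he⟩ := hf x
    refine ⟨f x, _, ?_, Eval.comp (Eval.fst (node (enc x) leaf)) he⟩
    simp only [size]
    omega
  · intro h1
    cases hh with
    | nil => simp [len] at h1
    | @cons h' q y t hh' he hy =>
      simp only [len] at h1
      have h2 : len h' = 0 := by omega
      rw [len_eq_zero] at h2
      subst h2
      -- the query was `f x`
      obtain ⟨t1, ht1, he1⟩ := hf x
      have hq : q = f x := by
        have e1 := U_eq he (K := (size (code (Prog.comp cf Prog.fst)) + 10) *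
          (t + (t1 + (size (node (enc x) leaf) + 1) + size (node (enc x) leaf) + 1)) + 10) (by
            have := Nat.mul_le_mul_left (size (code (Prog.comp cf Prog.fst)) + 10)
              (show t ≤ t + (t1 + (size (node (enc x) leaf) + 1) + size (node (enc x) leaf) + 1)
                by omega)
            omega)
        have e2 := U_eq (Eval.comp (Eval.fst (node (enc x) leaf)) he1)
          (K := (size (code (Prog.comp cf Prog.fst)) + 10) *
          (t + (t1 + (size (node (enc x) leaf) + 1) + size (node (enc x) leaf) + 1)) + 10) (by
            have := Nat.mul_le_mul_left (size (code (Prog.comp cf Prog.fst)) + 10)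
              (show (size (node (enc x) leaf) + 1) + t1 + size (node (enc x) leaf) + 1 ≤
                t + (t1 + (size (node (enc x) leaf) + 1) + size (node (enc x) leaf) + 1)
                by omega)
            omega)
        rw [e1] at e2
        have e3 : enc q = enc (f x) := by
          injection e2
        have := congrArg dec e3
        simpa using this
      subst hq
      have hy' : y.length ≤ P.eval x.length := by
        have h3 := hy.1
        have h4 := poly_mono T.p (hlen x)
        simp only [P, Polynomial.eval_comp, Polynomial.eval_mul, Polynomial.eval_ofNat]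
        omega
      obtain ⟨t2, ht2, he2⟩ := hg x y
      have hqg : qg.eval (x.length + y.length) ≤ qg.eval (x.length + P.eval x.length) :=
        poly_mono qg (by omega)
      have hys := size_enc_le y
      refine ⟨g x y, _, ?_, Eval.comp (Eval.pair (Eval.fst (node (enc x) (node (enc y) leaf)))
        (Eval.comp (Eval.snd (node (enc x) (node (enc y) leaf)))
          (Eval.fst (node (enc y) leaf)))) he2, hred x hx0 y hy⟩
      simp only [size]
      omega


end Pool.Agent.H13.EL
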