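import Pool.Agent.H13.EL.Defs

/-!
# The orbit of a nice function
-/

set_option autoImplicit false

namespace Pool.Agent.H13.EL

open Pool.Agent.H88.RO Pool.Agent.H88.RO.Tr Pool.Agent.H65.TS Pool.Agent.H65.NU

variable {O : List Bool → Bool} {F : ℕ → ℕ}

/-- the numbers `2, F 2, F (F 2), ...` -/
def orb (F : ℕ → ℕ) (i : ℕ) : ℕ := F^[i] 2

theorem orb_succ (i : ℕ) : orb F (i + 1) = F (orb F i) := by
  rw [orb, Function.iterate_succ_apply', orb]

theorem two_le_orb (hF : Nice O F) (i : ℕ) : 2 ≤ orb F i := by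
  induction i with
  | zero => exact le_refl 2
  | succ i ih =>
    rw [orb_succ]
    have := hF.lt _ ih
    omega

theorem orb_strictMono (hF : Nice O F) : StrictMono (orb F) :=
  strictMono_nat_of_lt_succ (fun i => by rw [orb_succ]; exact hF.lt _ (two_le_orb hF i))

end Pool.Agent.H13.EL
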