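import Pool.Agent.H40.EL.Up
import Pool.Agent.H13.EL.OrbT

/-!
# From sets in coNP to reductions relative to the windows of a nice function
-/

set_option autoImplicit false

namespace Pool.Agent.H13.EL

open Pool.Agent.H88.RO Pool.Agent.H88.RO.Tr Pool.Agent.H65.TS Pool.Agent.H65.NU
open Pool.Agent.H40.EL (zerT zerT_spec FP.zerT' andT andT_spec FP.andT' impT impT_spec FP.impT')

variable {O : List Bool → Bool} {F : ℕ → ℕ}

/-- the lower end of the block which contains `n + 2` -/
def low (F : ℕ → ℕ) (n : ℕ) : ℕ := orb F (lam F (n + 2))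

theorem low_le (n : ℕ) : low F n ≤ n + 2 := orb_lam_le (by omega)

theorem lt_low (hF : Nice O F) (n : ℕ) : n + 2 < F (low F n) := by
  have h := lt_orb_lam hF (n + 2)
  rw [orb_succ] at h
  exact h

/-- instances in the same block are in each others windows -/
theorem mem_window_of_low (hF : Nice O F) {x x' : List Bool}
    (h : low F x.length = low F x'.length) : x' ∈ window F x := by
  refine ⟨?_, ?_⟩
  · have h1 := lt_low hF x'.length
    rw [← h] at h1
    exact h1.trans_le (hF.mono (low_le _))
  · have h1 := lt_low hF x.length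
    rw [h] at h1
    exact h1.trans_le (hF.mono (low_le _))

theorem exists_bound (hF : Nice O F) : ∃ p : Polynomial ℕ, ∀ n, F n ≤ p.eval n := by
  obtain ⟨q, hq⟩ := (FP.unF' hF (FP.id' (O := O))).size_bound
  refine ⟨q.comp (2 * Polynomial.X + 1), fun n => ?_⟩
  have h1 := hq (num n)
  rw [unF, size_num, size_num, len_num] at h1
  simp only [Polynomial.eval_comp, Polynomial.eval_add, Polynomial.eval_mul,
    Polynomial.eval_ofNat, Polynomial.eval_X, Polynomial.eval_one]
  omega

/-- program for the lower end of the block -/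
def lowT (F : ℕ → ℕ) (v : Tr) : Tr := fst (lamP F (node leaf (node leaf v)))

theorem lowT_eq (hF : Nice O F) (v : Tr) : lowT F v = num (low F (len v)) := by
  rw [lowT, lamP_eq hF, fst_node]
  rfl

theorem FP.lowT' (hF : Nice O F) {G : Tr → Tr} (hG : FP O G) : FP O (fun v => lowT F (G v)) :=
  FP.fst' (FP.lamP' hF (FP.node' FP.leaf' (FP.node' FP.leaf' hG)))

/-- the blocks on which `S` has solutions -/
def Blk (F : ℕ → ℕ) (S : Search O) : Set (List Bool) :=
  {w | (w = List.replicate w.length true ∧ w.length ∈ Set.range (orb F)) ∧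
    ∀ x : List Bool, low F x.length = w.length → ∃ y, S.IsSol x y}

open Classical in
theorem inPi2_Blk (hF : Nice O F) (S : Search O) : InPi2 O (Blk F S) := by
  obtain ⟨pF, hpF⟩ := exists_bound hF
  obtain ⟨P, hP1, hP2⟩ := exists_polyT S.p
  refine ⟨{v | ¬ (un1 v = List.replicate (un1 v).length true ∧
      (un1 v).length ∈ Set.range (orb F)) ∨
    (low F (un2 v).length = (un1 v).length ∧ ∀ y, ¬ S.IsSol (un2 v) y)}, pF, ?_, fun w => ?_⟩
  · refine ⟨fun v y => decide ((un1 v = List.replicate (un1 v).length true ∧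
      (un1 v).length ∈ Set.range (orb F)) ∧ (low F (un2 v).length = (un1 v).length →
        S.IsSol (un2 v) y)), S.p, ?_, fun v => ?_⟩
    · have hv : FP O (fun v => fst v) := FP.fst' FP.id'
      have hy : FP O (fun v => snd v) := FP.snd' FP.id'
      have hw := FP.un1T' hv
      have hu := FP.un2T' hv
      have h1 := FP.andT' (FP.andT' (FP.cs' (FP.zerT' hw) (FP.const' tt) FP.leaf')
        (FP.orbT' hF hw)) (FP.impT' (FP.eqL' (FP.lowT' hF hu) hw) (FP.qT' S.polyTime (hP2 O) hu hy))
      refine polyTimeRel_of_FP h1 (fun v y => ?_)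
      simp only [fst_node, snd_node]
      rw [decide_eq_true_eq, andT_spec, andT_spec, impT_spec]
      rw [un1T_enc, un2T_enc, orbT_spec hF, eqL_spec, lowT_eq hF, qT_spec hP1, dec_enc, dec_enc]
      simp only [len_num, len_enc]
      have h2 : cs (zerT (enc (un1 v))) tt leaf ≠ leaf ↔
          un1 v = List.replicate (un1 v).length true := by
        rw [← zerT_spec]
        by_cases h : zerT (enc (un1 v)) = leaf
        · rw [cs_pos _ _ h]; simp [h]
        · rw [cs_neg _ _ h]; simp [h]
      rw [h2]
      exact Iff.rfl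
    · simp only [decide_eq_true_eq, Set.mem_compl_iff, Set.mem_ofPred_eq]
      constructor
      · intro h
        push Not at h
        obtain ⟨h1, h2⟩ := h
        by_cases h3 : low F (un2 v).length = (un1 v).length
        · obtain ⟨y, hy⟩ := h2 h3
          exact ⟨y, hy.1.trans (poly_mono S.p (un2_length v)), h1, fun _ => hy⟩
        · exact ⟨[], by simp, h1, fun h4 => absurd h4 h3⟩
      · rintro ⟨y, _, h1, h2⟩ h3
        rcases h3 with h3 | ⟨h3, h4⟩
        · exact h3 h1
        · exact h4 y (h2 h3)
  · simp only [Set.mem_compl_iff, Set.mem_ofPred_eq, un1_pr, un2_pr, Blk]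
    constructor
    · intro h
      by_cases h1 : w = List.replicate w.length true ∧ w.length ∈ Set.range (orb F)
      · have h2 : ∃ x : List Bool, low F x.length = w.length ∧ ∀ y, ¬ S.IsSol x y := by
          by_contra hcon
          push Not at hcon
          exact h ⟨h1, hcon⟩
        obtain ⟨x, h3, h4⟩ := h2
        refine ⟨x, ?_, Or.inr ⟨h3, h4⟩⟩
        have h5 := lt_low hF x.length
        rw [h3] at h5
        have h6 := hpF w.length
        omega
      · exact ⟨[], by simp, Or.inl h1⟩
    · rintro ⟨u, _, h1⟩ ⟨h2, h3⟩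
      rcases h1 with h1 | ⟨h4, h5⟩
      · exact h1 h2
      · obtain ⟨y, hy⟩ := h3 u h4
        exact h5 y hy

theorem isOrbit_Blk (S : Search O) : IsOrbit F (Blk F S) := by
  rintro w ⟨⟨h1, ⟨i, h2⟩⟩, -⟩
  exact ⟨i, by rw [h1, ← h2]; simp [orb]⟩

/-- **From sets in coNP to reductions relative to the windows of a nice function.** -/
theorem upF (hF : Nice O F) (h : ∀ L, IsOrbit F L → InPi2 O L → InNP O Lᶜ) (S : Search O) :
    ∃ T : TFNP O, S.Reduces T (window F) := by
  have hLc := h (Blk F S) (isOrbit_Blk S) (inPi2_Blk hF S)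
  obtain ⟨T, hT⟩ := Pool.Agent.H40.EL.exists_TFNP
    (c := fun z => List.replicate (low F z.length) true)
    (cT := fun z => onesPre (lowT F z) leaf) S.polyTime S.p
    (fun z => by rw [onesPre_leaf, lowT_eq hF, len_num, len_enc])
    (fun G hG => FP.onesPre' (FP.lowT' hF hG) FP.leaf') hLc
    (fun z hz => by
      obtain ⟨y, hy⟩ := hz.2 z (by rw [List.length_replicate])
      exact ⟨y, hy⟩)
  refine ⟨T, fun x => x, fun _ y => y.tail, polyTimeFun_of_FP FP.id' (fun x => rfl),
    polyTimeFun₂_tail, fun x hx y hy => hT x y hy ?_⟩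
  refine ⟨⟨by rw [List.length_replicate], ⟨lam F (x.length + 2), by
    rw [List.length_replicate]; rfl⟩⟩, fun x' hx' => hx x' (mem_window_of_low hF ?_)⟩
  rw [List.length_replicate] at hx'
  exact hx'.symm

end Pool.Agent.H13.EL
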